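import Mathlib

/-!
# From slaloms to infinitely often equal functions (MP_54c972_lc)

Bartoszyński's argument, carried out inside a prescribed infinite set `K`, with a selection by
Hall's marriage theorem.
-/

open Finset

namespace Pool.H32.AV

/-- Partial finite functions coded by natural numbers. -/
noncomputable def gr (v : ℕ) : Finset (ℕ × ℕ) := (Denumerable.eqv (Finset (ℕ × ℕ))).symm v

open Classical in
/-- The value of a coded finite function. -/
noncomputable def grVal (v k : ℕ) : ℕ := if h : ∃ y, (k, y) ∈ gr v then h.choose else 0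

/-- The domain of a coded finite function. -/
noncomputable def grDom (v : ℕ) : Finset ℕ := (gr v).image Prod.fst

/-- The code of the restriction of `g` to `T`. -/
noncomputable def grCode (g : ℕ → ℕ) (T : Finset ℕ) : ℕ :=
  Denumerable.eqv (Finset (ℕ × ℕ)) (T.image fun k => (k, g k))

lemma gr_grCode (g : ℕ → ℕ) (T : Finset ℕ) : gr (grCode g T) = T.image fun k => (k, g k) := by
  unfold gr grCode
  exact Equiv.symm_apply_apply _ _

lemma grDom_grCode (g : ℕ → ℕ) (T : Finset ℕ) : grDom (grCode g T) = T := by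
  unfold grDom
  rw [gr_grCode, Finset.image_image]
  simp [Function.comp_def]

lemma grVal_grCode (g : ℕ → ℕ) {T : Finset ℕ} {k : ℕ} (hk : k ∈ T) :
    grVal (grCode g T) k = g k := by
  unfold grVal
  have h : ∃ y, (k, y) ∈ gr (grCode g T) := by
    refine ⟨g k, ?_⟩
    rw [gr_grCode]
    exact Finset.mem_image_of_mem (fun k => (k, g k)) hk
  rw [dif_pos h]
  have h1 : (k, h.choose) ∈ gr (grCode g T) := h.choose_spec
  have h1' : (k, h.choose) ∈ T.image fun k => (k, g k) := by
    rw [← gr_grCode g T]; exact h1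
  obtain ⟨k', _, hk'⟩ := Finset.mem_image.1 h1'
  have h2 : k' = k := congrArg Prod.fst hk'
  have h3 : g k' = h.choose := congrArg Prod.snd hk'
  rw [← h3, h2]

/-- The Hall selection for one slalom. -/
lemma exists_selection (φ : ℕ → Finset ℕ) (h : ℕ → ℕ) (hφ : ∀ i, (φ i).card ≤ h i) :
    ∃ c : {p : ℕ × ℕ // p.2 ∈ φ p.1 ∧ ∑ i ∈ range (p.1 + 1), h i ≤ (grDom p.2).card} → ℕ,
      Function.Injective c ∧ ∀ p, c p ∈ grDom p.1.2 := by
  classical
  apply (Finset.all_card_le_biUnion_card_iff_exists_injective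
    (fun p : {p : ℕ × ℕ // p.2 ∈ φ p.1 ∧ ∑ i ∈ range (p.1 + 1), h i ≤ (grDom p.2).card} =>
      grDom p.1.2)).1
  intro s
  rcases s.eq_empty_or_nonempty with rfl | hs
  · simp
  obtain ⟨p, hp, hmax⟩ := s.exists_max_image (fun p => p.1.1) hs
  have h1 : s.card ≤ ((range (p.1.1 + 1)).sigma φ).card := by
    apply Finset.card_le_card_of_injOn (fun q => (⟨q.1.1, q.1.2⟩ : Σ _ : ℕ, ℕ))
    · intro q hq
      simp only [Finset.coe_sigma, Set.mem_sigma_iff, Finset.mem_coe, Finset.mem_range]
      exact ⟨by have := hmax q hq; omega, q.2.1⟩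
    · intro q _ q' _ hqq
      have e1 : q.1.1 = q'.1.1 := congrArg Sigma.fst hqq
      have e2 : q.1.2 = q'.1.2 := by
        have := (Sigma.mk.inj_iff.1 hqq).2
        exact eq_of_heq this
      exact Subtype.ext (Prod.ext e1 e2)
  calc s.card ≤ _ := h1
    _ = ∑ i ∈ range (p.1.1 + 1), (φ i).card := Finset.card_sigma _ _
    _ ≤ ∑ i ∈ range (p.1.1 + 1), h i := Finset.sum_le_sum fun i _ => hφ i
    _ ≤ (grDom p.1.2).card := p.2.2
    _ ≤ (s.biUnion fun p => grDom p.1.2).card :=
      Finset.card_le_card (Finset.subset_biUnion_of_mem (fun p => grDom p.1.2) hp)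

/-- Slaloms of prescribed width capturing every function infinitely often yield functions which are
infinitely often equal to every function on every infinite set. -/
theorem exists_ioe {ι : Type*} (φ : ι → ℕ → Finset ℕ) (h : ℕ → ℕ)
    (hφ : ∀ b i, (φ b i).card ≤ h i)
    (hcap : ∀ g : ℕ → ℕ, ∃ b, {i | g i ∈ φ b i}.Infinite) :
    ∃ ψ : ι → ℕ → ℕ, ∀ K : Set ℕ, K.Infinite → ∀ g : ℕ → ℕ,
      ∃ b, {k | k ∈ K ∧ ψ b k = g k}.Infinite := by
  classical
  choose c hcinj hcmem using fun b => exists_selection (φ b) h (hφ b)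
  refine ⟨fun b k => if hk : ∃ p, c b p = k then grVal hk.choose.1.2 k else 0, ?_⟩
  intro K hK g
  choose T hTK hTcard using fun i : ℕ => hK.exists_subset_card_eq (∑ i' ∈ range (i + 1), h i')
  obtain ⟨b, hb⟩ := hcap fun i => grCode g (T i)
  refine ⟨b, ?_⟩
  have hvalid : ∀ i ∈ {i | grCode g (T i) ∈ φ b i}, (grCode g (T i)) ∈ φ b i ∧
      ∑ i' ∈ range (i + 1), h i' ≤ (grDom (grCode g (T i))).card := by
    intro i hi
    refine ⟨hi, ?_⟩
    rw [grDom_grCode, hTcard]
  have hinj : Set.InjOn (fun i => if hi : grCode g (T i) ∈ φ b i ∧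
      ∑ i' ∈ range (i + 1), h i' ≤ (grDom (grCode g (T i))).card then
      c b ⟨(i, grCode g (T i)), hi⟩ else 0) {i | grCode g (T i) ∈ φ b i} := by
    intro i hi i' hi' hii
    simp only [dif_pos (hvalid i hi), dif_pos (hvalid i' hi')] at hii
    have := hcinj b hii
    exact congrArg (fun p => p.1.1) this
  refine (hb.image hinj).mono ?_
  rintro _ ⟨i, hi, rfl⟩
  simp only [dif_pos (hvalid i hi)]
  set p : {p : ℕ × ℕ // p.2 ∈ φ b p.1 ∧ ∑ i ∈ range (p.1 + 1), h i ≤ (grDom p.2).card} :=
    ⟨(i, grCode g (T i)), hvalid i hi⟩ with hp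
  have hmem : c b p ∈ T i := by
    have := hcmem b p
    rw [hp] at this
    simpa only [grDom_grCode] using this
  refine ⟨hTK i hmem, ?_⟩
  have hex : ∃ q, c b q = c b p := ⟨p, rfl⟩
  show (if hk : ∃ q, c b q = c b p then grVal hk.choose.1.2 (c b p) else 0) = g (c b p)
  rw [dif_pos hex]
  have hq : hex.choose = p := hcinj b hex.choose_spec
  rw [hq]
  exact grVal_grCode g hmem

end Pool.H32.AV
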