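import Mathlib

/-!
# Linear algebra for mad families of subspaces (MP_54c972_lc)

`w n = a n + a' (g n)`, where `a` is linearly independent modulo `A₁` and `a' j ∈ A₁` are
linearly independent.
-/

open Submodule Module

namespace Pool.H32.AV

variable {F : Type*} [Field F] {E : Type*} [AddCommGroup E] [Module F E]

/-- The span of the first `n` vectors `a i + a' (g i)`. -/
def Vg (a a' : ℕ → E) (g : ℕ → ℕ) (n : ℕ) : Submodule F E :=
  span F ((fun i => a i + a' (g i)) '' Set.Iio n)

/-- The span of all the vectors `a i + a' (g i)`. -/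
def Xg (a a' : ℕ → E) (g : ℕ → ℕ) : Submodule F E :=
  span F (Set.range fun i => a i + a' (g i))

lemma Vg_mono (a a' : ℕ → E) (g : ℕ → ℕ) : Monotone (Vg (F := F) a a' g) := by
  intro m n hmn
  exact span_mono (Set.image_mono (Set.Iio_subset_Iio hmn))

lemma Vg_succ (a a' : ℕ → E) (g : ℕ → ℕ) (n : ℕ) :
    Vg (F := F) a a' g (n + 1) = Vg a a' g n ⊔ span F {a n + a' (g n)} := by
  unfold Vg
  rw [← span_union]
  congr 1
  ext x
  simp only [Set.mem_image, Set.mem_Iio, Set.mem_union, Set.mem_singleton_iff]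
  constructor
  · rintro ⟨i, hi, rfl⟩
    rcases Nat.lt_succ_iff_lt_or_eq.1 hi with h | h
    · exact Or.inl ⟨i, h, rfl⟩
    · right; rw [h]
  · rintro (⟨i, hi, rfl⟩ | rfl)
    · exact ⟨i, by omega, rfl⟩
    · exact ⟨n, by omega, rfl⟩

lemma Xg_eq_iSup (a a' : ℕ → E) (g : ℕ → ℕ) :
    Xg (F := F) a a' g = ⨆ n, Vg a a' g n := by
  unfold Xg Vg
  rw [← span_iUnion]
  congr 1
  ext x
  simp only [Set.mem_range, Set.mem_iUnion, Set.mem_image, Set.mem_Iio]
  constructor
  · rintro ⟨i, rfl⟩
    exact ⟨i + 1, i, by omega, rfl⟩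
  · rintro ⟨_, i, _, rfl⟩
    exact ⟨i, rfl⟩

lemma mem_Xg (a a' : ℕ → E) (g : ℕ → ℕ) {x : E} (hx : x ∈ Xg (F := F) a a' g) :
    ∃ n, x ∈ Vg (F := F) a a' g n := by
  rw [Xg_eq_iSup, mem_iSup_of_directed _ (Vg_mono a a' g).directed_le] at hx
  exact hx

instance (a a' : ℕ → E) (g : ℕ → ℕ) (n : ℕ) : FiniteDimensional F (Vg (F := F) a a' g n) := by
  unfold Vg
  exact FiniteDimensional.span_of_finite F ((Set.finite_Iio n).image _)

/-- The combination vectors are linearly independent modulo `A₁`. -/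
lemma w_indep {A₁ : Submodule F E} {a a' : ℕ → E}
    (ha : LinearIndependent F (fun n => A₁.mkQ (a n))) (ha' : ∀ n, a' n ∈ A₁) (g : ℕ → ℕ) :
    LinearIndependent F (fun n => A₁.mkQ (a n + a' (g n))) := by
  have : (fun n => A₁.mkQ (a n + a' (g n))) = fun n => A₁.mkQ (a n) := by
    funext n
    rw [map_add, (Submodule.Quotient.mk_eq_zero A₁).2 (ha' (g n)) |> fun h => show A₁.mkQ _ = 0 from h,
      add_zero]
  rw [this]; exact ha

lemma w_indep' {A₁ : Submodule F E} {a a' : ℕ → E}
    (ha : LinearIndependent F (fun n => A₁.mkQ (a n))) (ha' : ∀ n, a' n ∈ A₁) (g : ℕ → ℕ) :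
    LinearIndependent F (fun n => a n + a' (g n)) :=
  LinearIndependent.of_comp A₁.mkQ (w_indep ha ha' g)

/-- `X_g` is infinite-dimensional. -/
lemma Xg_infinite {A₁ : Submodule F E} {a a' : ℕ → E}
    (ha : LinearIndependent F (fun n => A₁.mkQ (a n))) (ha' : ∀ n, a' n ∈ A₁) (g : ℕ → ℕ) :
    ¬ FiniteDimensional F (Xg (F := F) a a' g) := by
  intro hfin
  have hb := (Basis.span (w_indep' ha ha' g))
  have : FiniteDimensional F (span F (Set.range fun i => a i + a' (g i))) := hfin
  have := Module.Finite.finite_basis hb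
  exact not_finite ℕ

/-- `X_g` meets `A₁` only in `0`. -/
lemma Xg_inf_A₁ {A₁ : Submodule F E} {a a' : ℕ → E}
    (ha : LinearIndependent F (fun n => A₁.mkQ (a n))) (ha' : ∀ n, a' n ∈ A₁) (g : ℕ → ℕ) :
    Xg (F := F) a a' g ⊓ A₁ = ⊥ := by
  have h := w_indep ha ha' g
  rw [eq_bot_iff]
  rintro x ⟨hx, hxA⟩
  unfold Xg at hx
  obtain ⟨c, rfl⟩ := (Finsupp.mem_span_range_iff_exists_finsupp).1 hx
  have h1 : A₁.mkQ (c.sum fun i r => r • (a i + a' (g i))) = 0 :=
    (Submodule.Quotient.mk_eq_zero A₁).2 hxA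
  have h2 : Finsupp.linearCombination F (fun n => A₁.mkQ (a n + a' (g n))) c = 0 := by
    rw [Finsupp.linearCombination_apply, ← h1, Finsupp.sum, Finsupp.sum, map_sum]
    simp only [map_smul]
  have h3 : c = 0 := (linearIndependent_iff.1 h) c h2
  simp [h3]

/-- If eventually `w n ∉ B ⊔ V n`, then `X_g ⊓ B` is finite-dimensional. -/
lemma Xg_inf_finite {B : Submodule F E} {a a' : ℕ → E} {g : ℕ → ℕ} {N : ℕ}
    (h : ∀ n ≥ N, a n + a' (g n) ∉ B ⊔ Vg (F := F) a a' g n) :
    FiniteDimensional F ↥(Xg (F := F) a a' g ⊓ B) := by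
  have key : ∀ m, Vg (F := F) a a' g m ⊓ B ≤ Vg a a' g N := by
    intro m
    induction m with
    | zero => exact inf_le_left.trans (Vg_mono a a' g (Nat.zero_le _))
    | succ m ih =>
      by_cases hm : m + 1 ≤ N
      · exact inf_le_left.trans (Vg_mono a a' g hm)
      · rintro x ⟨hx, hxB⟩
        have hx' : x ∈ Vg (F := F) a a' g (m + 1) := hx
        rw [Vg_succ, mem_sup] at hx'
        obtain ⟨v, hv, z, hz, hvz⟩ := hx'
        obtain ⟨c, rfl⟩ := mem_span_singleton.1 hz
        by_cases hc : c = 0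
        · subst hc
          rw [zero_smul, add_zero] at hvz
          subst hvz
          exact ih ⟨hv, hxB⟩
        · exfalso
          apply h m (by omega)
          have : a m + a' (g m) = c⁻¹ • x + (-(c⁻¹ • v)) := by
            rw [← hvz, smul_add, smul_smul, inv_mul_cancel₀ hc, one_smul]
            abel
          rw [this]
          exact add_mem_sup (B.smul_mem _ hxB) (neg_mem (Submodule.smul_mem _ _ hv))
  have : Xg (F := F) a a' g ⊓ B ≤ Vg a a' g N := by
    rintro x ⟨hx, hxB⟩
    obtain ⟨m, hm⟩ := mem_Xg a a' g hx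
    exact key m ⟨hm, hxB⟩
  exact Submodule.finiteDimensional_of_le this

/-- Counting: at most `n + 1 + k` indices `j` satisfy `a₀ + a' j ∈ B ⊔ V` when `V` is spanned by
`n` vectors and `dim (A₁ ⊓ B) = k`. -/
lemma count_le {A₁ B : Submodule F E} (hAB : FiniteDimensional F ↥(A₁ ⊓ B)) {a' : ℕ → E}
    (ha'A : ∀ j, a' j ∈ A₁) (ha' : LinearIndependent F a') (z : E) (V : Finset E)
    (T : Finset ℕ) (hT : ∀ j ∈ T, z + a' j ∈ B ⊔ span F (V : Set E)) :
    T.card ≤ V.card + 1 + finrank F ↥(A₁ ⊓ B) := by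
  classical
  set U : Submodule F E := span F (Set.range fun j : T => a' j) with hU
  have hli : LinearIndependent F (fun j : T => a' j) := ha'.comp _ Subtype.val_injective
  have hUcard : finrank F U = T.card := by
    rw [hU, finrank_span_eq_card hli, Fintype.card_coe]
  have : FiniteDimensional F U := by
    rw [hU]; exact FiniteDimensional.span_of_finite F (Set.finite_range _)
  set f : U →ₗ[F] E ⧸ B := B.mkQ ∘ₗ U.subtype with hf
  have hrk := LinearMap.finrank_range_add_finrank_ker f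
  have hUA : U ≤ A₁ := by
    rw [hU, span_le]
    rintro _ ⟨j, rfl⟩
    exact ha'A j
  have hker : finrank F (LinearMap.ker f) ≤ finrank F ↥(A₁ ⊓ B) := by
    have h1 : (LinearMap.ker f).map U.subtype ≤ A₁ ⊓ B := by
      rintro x ⟨u, hu, rfl⟩
      have hu' : B.mkQ (u : E) = 0 := hu
      refine ⟨hUA u.2, ?_⟩
      exact (Submodule.Quotient.mk_eq_zero B).1 hu'
    have h2 : finrank F ((LinearMap.ker f).map U.subtype) = finrank F (LinearMap.ker f) :=
      Submodule.finrank_map_subtype_eq U _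
    rw [← h2]
    exact Submodule.finrank_mono h1
  have hrange : finrank F (LinearMap.range f) ≤ V.card + 1 := by
    set W : Finset (E ⧸ B) := insert (B.mkQ z) (V.image B.mkQ) with hW
    have h1 : LinearMap.range f ≤ span F (W : Set (E ⧸ B)) := by
      have h0 : LinearMap.range f = U.map B.mkQ := by
        rw [hf, LinearMap.range_comp, Submodule.range_subtype]
      rw [h0, hU, map_span, span_le]
      rintro _ ⟨_, ⟨j, rfl⟩, rfl⟩
      have hj := hT j j.2
      obtain ⟨b, hb, v, hv, hbv⟩ := mem_sup.1 hj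
      have h2 : B.mkQ (a' j) = B.mkQ v - B.mkQ z := by
        have h3 : a' j = b + v - z := by rw [hbv]; abel
        have h4 : B.mkQ b = 0 := (Submodule.Quotient.mk_eq_zero B).2 hb
        rw [h3, map_sub, map_add, h4, zero_add]
      show B.mkQ (a' j) ∈ _
      rw [h2]
      refine sub_mem ?_ (subset_span (by simp [hW]))
      have h5 : B.mkQ v ∈ (span F (V : Set E)).map B.mkQ := mem_map_of_mem hv
      rw [map_span] at h5
      refine span_mono ?_ h5
      rintro _ ⟨u, hu, rfl⟩
      rw [hW]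
      simp only [Finset.coe_insert, Finset.coe_image, Set.mem_insert_iff, Set.mem_image]
      exact Or.inr ⟨u, hu, rfl⟩
    calc finrank F (LinearMap.range f) ≤ finrank F (span F (W : Set (E ⧸ B))) :=
          Submodule.finrank_mono h1
      _ ≤ W.card := finrank_span_finset_le_card W
      _ ≤ (V.image B.mkQ).card + 1 := Finset.card_insert_le _ _
      _ ≤ V.card + 1 := by gcongr; exact Finset.card_image_le
  omega

end Pool.H32.AV
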