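import Mathlib

/-!
# Meager sets in `ℕ → Bool` by chopped reals (MP_54c972_lc)
-/

open Topology Set

namespace Pool.H32.AV

/-- Extending all the finitely many prefixes of length `m` into an open dense set by one block. -/
lemma block_aux {V : Set (ℕ → Bool)} (hVo : IsOpen V) (hVd : Dense V) (m : ℕ)
    (Φ : Finset (ℕ → Bool)) :
    ∃ m' : ℕ, m ≤ m' ∧ ∃ t : ℕ → Bool, ∀ σ ∈ Φ, ∀ x : ℕ → Bool, (∀ j < m, x j = σ j) →
      (∀ j, m ≤ j → j < m' → x j = t j) → x ∈ V := by
  classical
  induction Φ using Finset.induction_on with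
  | empty => exact ⟨m, le_rfl, fun _ => false, by simp⟩
  | insert σ Φ hσ ih =>
    obtain ⟨m', hmm', t, ht⟩ := ih
    set z₀ : ℕ → Bool := fun j => if j < m then σ j else t j with hz₀
    have hopen : IsOpen (PiNat.cylinder z₀ m') := PiNat.isOpen_cylinder (fun _ : ℕ => Bool) z₀ m'
    obtain ⟨z, hz, hzV⟩ := hVd.inter_open_nonempty _ hopen ⟨z₀, PiNat.self_mem_cylinder z₀ m'⟩
    obtain ⟨s, hs, hzs, hsV⟩ := (PiNat.isTopologicalBasis_cylinders (fun _ : ℕ => Bool)).exists_subset_of_mem_open hzV hVo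
    obtain ⟨z₁, m'', rfl⟩ := hs
    have hcz : PiNat.cylinder z m'' = PiNat.cylinder z₁ m'' := PiNat.mem_cylinder_iff_eq.1 hzs
    rw [← hcz] at hsV
    refine ⟨max m' m'', le_max_of_le_left hmm', z, ?_⟩
    intro τ hτ x hx1 hx2
    rcases Finset.mem_insert.1 hτ with rfl | hτ
    · apply hsV
      rw [PiNat.mem_cylinder_iff]
      intro j hj
      by_cases hjm : j < m
      · rw [hx1 j hjm]
        have : z j = z₀ j := (PiNat.mem_cylinder_iff.1 hz) j (by omega)
        rw [this, hz₀]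
        simp [hjm]
      · exact hx2 j (by omega) (lt_max_of_lt_right hj)
    · apply ht τ hτ x hx1
      intro j hj1 hj2
      rw [hx2 j hj1 (lt_max_of_lt_left hj2)]
      have : z j = z₀ j := (PiNat.mem_cylinder_iff.1 hz) j hj2
      rw [this, hz₀]
      simp [Nat.not_lt.2 hj1]

/-- The block lemma. -/
lemma block {V : Set (ℕ → Bool)} (hVo : IsOpen V) (hVd : Dense V) (m : ℕ) :
    ∃ m' : ℕ, m < m' ∧ ∃ t : ℕ → Bool, ∀ x : ℕ → Bool,
      (∀ j, m ≤ j → j < m' → x j = t j) → x ∈ V := by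
  classical
  obtain ⟨m', hmm', t, ht⟩ := block_aux hVo hVd m
    ((Finset.univ : Finset (Fin m → Bool)).image
      (fun σ => fun j : ℕ => if h : j < m then σ ⟨j, h⟩ else false))
  refine ⟨m' + 1, by omega, t, fun x hx => ?_⟩
  refine ht (fun j : ℕ => if h : j < m then x j else false) ?_ x ?_
    (fun j hj1 hj2 => hx j hj1 (by omega))
  · exact Finset.mem_image.2 ⟨fun j => x j, Finset.mem_univ _, rfl⟩
  · intro j hj
    simp [hj]

/-- Every meager subset of `ℕ → Bool` is captured by a chopped real. -/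
theorem exists_chopped {S : Set (ℕ → Bool)} (hS : IsMeagre S) :
    ∃ (y : ℕ → Bool) (i : ℕ → ℕ), StrictMono i ∧
      ∀ x ∈ S, ∃ N, ∀ n ≥ N, ∃ j, i n ≤ j ∧ j < i (n + 1) ∧ x j ≠ y j := by
  classical
  have hres : Sᶜ ∈ residual (ℕ → Bool) := hS
  obtain ⟨t, htS, htG, htd⟩ := mem_residual.1 hres
  obtain ⟨f, hfo, hft⟩ := (isGδ_iff_eq_iInter_nat).1 htG
  have hfd : ∀ n, Dense (f n) := fun n => htd.mono (by rw [hft]; exact iInter_subset _ n)
  -- decreasing open dense sets
  set V : ℕ → Set (ℕ → Bool) := fun n => ⋂ m ∈ Finset.range (n + 1), f m with hV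
  have hVo : ∀ n, IsOpen (V n) := fun n => isOpen_biInter_finset fun m _ => hfo m
  have hVd : ∀ n, Dense (V n) := fun n => by
    apply htd.mono
    rw [hft]
    exact subset_iInter₂ fun m _ => iInter_subset _ m
  choose M hM T hT using fun n m => block (hVo n) (hVd n) m
  obtain ⟨i, hi0, hi1⟩ : ∃ i : ℕ → ℕ, i 0 = 0 ∧ ∀ n, i (n + 1) = M n (i n) :=
    ⟨fun n => Nat.rec 0 (fun k r => M k r) n, rfl, fun n => rfl⟩
  have hmono : StrictMono i := strictMono_nat_of_lt_succ fun n => by rw [hi1]; exact hM _ _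
  -- the index of the block
  have hblk : ∀ j : ℕ, ∃ n, i n ≤ j ∧ j < i (n + 1) := by
    intro j
    have h0 : i 0 ≤ j := by rw [hi0]; exact Nat.zero_le _
    have hex : ∃ n, j < i n := ⟨j + 1, (Nat.lt_succ_self j).trans_le (hmono.id_le (j + 1))⟩
    refine ⟨Nat.find hex - 1, ?_, ?_⟩
    · by_cases h : Nat.find hex = 0
      · rw [h]; exact h0
      · have := Nat.find_min hex (m := Nat.find hex - 1) (by omega)
        omega
    · by_cases h : Nat.find hex = 0
      · have := Nat.find_spec hex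
        rw [h] at this
        exact absurd h0 (by omega)
      · have h2 := Nat.find_spec hex
        have h3 : Nat.find hex - 1 + 1 = Nat.find hex := by omega
        rw [h3]; exact h2
  choose b hb1 hb2 using hblk
  have hbu : ∀ n j, i n ≤ j → j < i (n + 1) → b j = n := by
    intro n j h1 h2
    have h3' : i n < i (b j + 1) := lt_of_le_of_lt h1 (hb2 j)
    have h4' : i (b j) < i (n + 1) := lt_of_le_of_lt (hb1 j) h2
    have h3 := hmono.lt_iff_lt.1 h3'
    have h4 := hmono.lt_iff_lt.1 h4'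
    omega
  refine ⟨fun j => T (b j) (i (b j)) j, i, hmono, ?_⟩
  intro x hx
  by_contra hcon
  push Not at hcon
  have hxV : ∀ n, x ∈ f n := by
    intro n
    obtain ⟨k, hk, hk'⟩ := hcon n
    have : x ∈ V k := by
      apply hT k (i k) x
      intro j hj1 hj2
      have := hk' j hj1 (by rw [hi1]; exact hj2)
      rw [this, hbu k j hj1 (by rw [hi1]; exact hj2)]
    have h2 := mem_iInter₂.1 this n (by simp; omega)
    exact h2
  have : x ∈ t := by rw [hft]; exact mem_iInter.2 hxV
  exact htS this hx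

end Pool.H32.AV
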