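import Mathlib
import Pool.Agent.H32.AV.Meager
import Pool.Agent.H32.AV.Hall

/-!
# A nonmeager set from infinitely often equal functions (MP_54c972_lc)
-/

open Topology Set

namespace Pool.H32.AV

/-- A strictly increasing majorant of `f`. -/
def bp (f : ℕ → ℕ) (m : ℕ) : ℕ := ∑ m' ∈ Finset.range (m + 1), f m' + m + 1

lemma lt_bp (f : ℕ → ℕ) (m : ℕ) : m < bp f m := by unfold bp; omega

lemma le_bp (f : ℕ → ℕ) (m : ℕ) : f m ≤ bp f m := by
  unfold bp
  have := Finset.single_le_sum (f := f) (fun i _ => Nat.zero_le _)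
    (show m ∈ Finset.range (m + 1) by simp)
  omega

lemma bp_mono (f : ℕ → ℕ) : Monotone (bp f) := by
  apply monotone_nat_of_le_succ
  intro n
  unfold bp
  rw [Finset.sum_range_succ _ (n + 1)]
  omega

/-- The window endpoints. -/
def pw (f : ℕ → ℕ) : ℕ → ℕ
  | 0 => 0
  | k + 1 => bp f (pw f k)

lemma pw_strictMono (f : ℕ → ℕ) : StrictMono (pw f) :=
  strictMono_nat_of_lt_succ fun n => lt_bp f (pw f n)

/-- Coded finite sets. -/
noncomputable def fs (v : ℕ) : Finset ℕ := (Denumerable.eqv (Finset ℕ)).symm v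

open Classical in
/-- The point of `ℕ → Bool` given by two functions and a parity. -/
noncomputable def pt (f c : ℕ → ℕ) (e : ℕ) : ℕ → Bool := fun j =>
  decide (∃ k, k % 2 = e ∧ pw f k ≤ j ∧ j < pw f (k + 2) ∧ j ∈ fs (c k))

lemma pt_eq (f c : ℕ → ℕ) (e k j : ℕ) (hk : k % 2 = e) (h1 : pw f k ≤ j)
    (h2 : j < pw f (k + 2)) : pt f c e j = true ↔ j ∈ fs (c k) := by
  classical
  unfold pt
  rw [decide_eq_true_iff]
  constructor
  · rintro ⟨k', hk', h1', h2', hj⟩
    have h3 : pw f k < pw f (k' + 2) := lt_of_le_of_lt h1 h2'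
    have h4 : pw f k' < pw f (k + 2) := lt_of_le_of_lt h1' h2
    have h3 := (pw_strictMono f).lt_iff_lt.1 h3
    have h4 := (pw_strictMono f).lt_iff_lt.1 h4
    have : k' = k := by omega
    rw [← this]; exact hj
  · intro hj
    exact ⟨k, hk, h1, h2, hj⟩

/-- The window containing an interval `[m, g m)` with `g m ≤ bp f m`. -/
lemma exists_window (f : ℕ → ℕ) (m : ℕ) : ∃ k, pw f k ≤ m ∧ bp f m ≤ pw f (k + 2) ∧
    m < pw f (k + 1) := by
  have hex : ∃ n, m < pw f n := ⟨m + 1, (Nat.lt_succ_self m).trans_le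
    ((pw_strictMono f).id_le (m + 1))⟩
  have hne : Nat.find hex ≠ 0 := by
    intro h
    have := Nat.find_spec hex
    rw [h] at this
    exact absurd this (by simp [pw])
  obtain ⟨k, hk⟩ := Nat.exists_eq_succ_of_ne_zero hne
  have h1 : m < pw f (k + 1) := by
    have := Nat.find_spec hex
    rw [hk] at this
    exact this
  have h2 : pw f k ≤ m := by
    have := Nat.find_min hex (m := k) (by omega)
    omega
  exact ⟨k, h2, bp_mono f h1.le, h1⟩

/-- The set of all the points `pt` is nonmeager. -/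
theorem not_isMeagre_range {ι : Type*} (ψ : ι → ℕ → ℕ)
    (hψ : ∀ K : Set ℕ, K.Infinite → ∀ g : ℕ → ℕ, ∃ b, {k | k ∈ K ∧ ψ b k = g k}.Infinite) :
    ¬ IsMeagre (Set.range fun q : ι × ι × Fin 2 => pt (ψ q.1) (ψ q.2.1) q.2.2) := by
  classical
  intro hS
  obtain ⟨y, i, hi, hy⟩ := exists_chopped hS
  -- the first function dominates infinitely often
  obtain ⟨b, hb⟩ := hψ Set.univ Set.infinite_univ fun m => i (m + 1)
  simp only [Set.mem_univ, true_and] at hb
  set f := ψ b with hf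
  -- windows containing a block
  have hK0 : {k | ∃ m, pw f k ≤ i m ∧ i (m + 1) ≤ pw f (k + 2)}.Infinite := by
    rw [Set.infinite_iff_exists_gt]
    intro N
    obtain ⟨m, hm, hNm⟩ := (Set.infinite_iff_exists_gt.1 hb) (pw f (N + 1))
    obtain ⟨k, hk1, hk2, hk3⟩ := exists_window f m
    refine ⟨k, ⟨m, hk1.trans (hi.id_le m), ?_⟩, ?_⟩
    · have h1 : f m = i (m + 1) := hm
      rw [← h1]
      exact (le_bp f m).trans hk2
    · have h2 : pw f (N + 1) < pw f (k + 1) := hNm.trans hk3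
      have := (pw_strictMono f).lt_iff_lt.1 h2
      omega
  -- choose a parity
  obtain ⟨e, he⟩ : ∃ e : Fin 2, {k | k % 2 = (e : ℕ) ∧
      ∃ m, pw f k ≤ i m ∧ i (m + 1) ≤ pw f (k + 2)}.Infinite := by
    by_contra hcon
    push Not at hcon
    apply hK0
    refine ((hcon 0).union (hcon 1)).subset ?_
    intro k hk
    rcases Nat.mod_two_eq_zero_or_one k with h | h
    · exact Or.inl ⟨by simpa using h, hk⟩
    · exact Or.inr ⟨by simpa using h, hk⟩
  obtain ⟨c, hc⟩ := hψ _ he fun k => Denumerable.eqv (Finset ℕ)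
    ((Finset.Ico (pw f k) (pw f (k + 2))).filter fun j => y j = true)
  obtain ⟨N, hN⟩ := hy (pt (ψ b) (ψ c) e) ⟨(b, c, e), rfl⟩
  obtain ⟨k, ⟨⟨hke, m, hm1, hm2⟩, hkc⟩, hkN⟩ := (Set.infinite_iff_exists_gt.1 hc) (i N)
  have hNm : N ≤ m := by
    have h1 : i N < i m := by
      have h2 : k ≤ pw f k := (pw_strictMono f).id_le k
      omega
    exact (hi.lt_iff_lt.1 h1).le
  obtain ⟨j, hj1, hj2, hj3⟩ := hN m hNm
  apply hj3
  have hA : pw f k ≤ j := hm1.trans hj1
  have hB : j < pw f (k + 2) := hj2.trans_le hm2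
  have h1 := pt_eq f (ψ c) e k j hke hA hB
  rw [hkc] at h1
  unfold fs at h1
  rw [Equiv.symm_apply_apply, Finset.mem_filter, Finset.mem_Ico] at h1
  have h2 : pt f (ψ c) (↑e) j = true ↔ y j = true := by
    rw [h1]
    exact ⟨fun h => h.2, fun h => ⟨⟨hA, hB⟩, h⟩⟩
  exact Bool.eq_iff_iff.2 h2

end Pool.H32.AV
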