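import Mathlib
import Pool.Agent.H32.AV.NonM
import Pool.Agent.H32.AV.LinAlg

/-!
# Mad families of subspaces have cardinality at least `non(M)` (MP_54c972_lc)
-/

open Submodule Module Cardinal

namespace Pool.H32.AV

variable {F : Type*} [Field F] {E : Type*} [AddCommGroup E] [Module F E]

/-- The sequence of prefixes of the branch predicted by `f`. -/
def pref (f : List ℕ → ℕ) : ℕ → List ℕ
  | 0 => []
  | n + 1 => pref f n ++ [f (pref f n)]

lemma length_pref (f : List ℕ → ℕ) (n : ℕ) : (pref f n).length = n := by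
  induction n with
  | zero => rfl
  | succ n ih => simp [pref, ih]

lemma pref_getElem? (f : List ℕ → ℕ) {i n : ℕ} (hi : i < n) :
    (pref f n)[i]? = some (f (pref f i)) := by
  induction n with
  | zero => omega
  | succ n ih =>
    rcases Nat.lt_succ_iff_lt_or_eq.1 hi with h | h
    · have h1 : i < (pref f n).length := by rw [length_pref]; exact h
      show (pref f n ++ [f (pref f n)])[i]? = _
      rw [List.getElem?_append_left h1]
      exact ih h
    · subst h
      show (pref f i ++ [f (pref f i)])[i]? = _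
      rw [List.getElem?_append_right (by rw [length_pref])]
      simp [length_pref]

open Classical in
/-- The vectors of a node. -/
noncomputable def nodeVec (a a' : ℕ → E) (s : List ℕ) : Finset E :=
  (Finset.range s.length).image fun i => a i + a' (s[i]?.getD 0)

lemma card_nodeVec (a a' : ℕ → E) (s : List ℕ) : (nodeVec a a' s).card ≤ s.length := by
  classical
  unfold nodeVec
  exact Finset.card_image_le.trans (by simp)

lemma span_nodeVec (a a' : ℕ → E) (f : List ℕ → ℕ) (n : ℕ) :
    span F ((nodeVec a a' (pref f n) : Finset E) : Set E) =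
      Vg (F := F) a a' (fun i => f (pref f i)) n := by
  unfold Vg nodeVec
  congr 1
  ext x
  simp only [Finset.coe_image, Finset.coe_range, Set.mem_image, Set.mem_Iio, length_pref]
  constructor
  · rintro ⟨i, hi, rfl⟩
    refine ⟨i, hi, ?_⟩
    rw [pref_getElem? f hi]
    simp
  · rintro ⟨i, hi, rfl⟩
    refine ⟨i, hi, ?_⟩
    rw [pref_getElem? f hi]
    simp

/-- The set of the successors predicted by `B` at the node `s`. -/
def predSet (a a' : ℕ → E) (B : Submodule F E) (s : List ℕ) : Set ℕ :=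
  {j | a s.length + a' j ∈ B ⊔ span F ((nodeVec a a' s : Finset E) : Set E)}

lemma predSet_finite {A₁ B : Submodule F E} (hAB : FiniteDimensional F ↥(A₁ ⊓ B)) {a a' : ℕ → E}
    (ha'A : ∀ j, a' j ∈ A₁) (ha' : LinearIndependent F a') (s : List ℕ) :
    (predSet (F := F) a a' B s).Finite := by
  by_contra hinf
  have hinf : (predSet (F := F) a a' B s).Infinite := hinf
  obtain ⟨T, hT, hTc⟩ := hinf.exists_subset_card_eq
    (s.length + 1 + finrank F ↥(A₁ ⊓ B) + 1)
  have h1 := count_le hAB ha'A ha' (a s.length) (nodeVec a a' s) T (fun j hj => hT hj)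
  have h2 := card_nodeVec a a' s
  omega

lemma predSet_ncard {A₁ B : Submodule F E} (hAB : FiniteDimensional F ↥(A₁ ⊓ B)) {a a' : ℕ → E}
    (ha'A : ∀ j, a' j ∈ A₁) (ha' : LinearIndependent F a') (s : List ℕ) :
    (predSet (F := F) a a' B s).ncard ≤ s.length + 1 + finrank F ↥(A₁ ⊓ B) := by
  have hfin := predSet_finite hAB ha'A ha' s (a := a)
  rw [Set.ncard_eq_toFinset_card _ hfin]
  have h1 := count_le hAB ha'A ha' (a s.length) (nodeVec a a' s) hfin.toFinset
    (fun j hj => by
      have : j ∈ predSet (F := F) a a' B s := hfin.mem_toFinset.1 hj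
      exact this)
  have h2 := card_nodeVec a a' s
  omega

/-- The set of all nodes at which `B` predicts `f` is infinite, whenever `X_g ⊓ B` is
infinite-dimensional. -/
lemma infinite_nodes {B : Submodule F E} {a a' : ℕ → E} (f : List ℕ → ℕ)
    (h : ¬ FiniteDimensional F ↥(Xg (F := F) a a' (fun i => f (pref f i)) ⊓ B)) :
    {s | f s ∈ predSet (F := F) a a' B s}.Infinite := by
  have h1 : {n | a n + a' (f (pref f n)) ∈
      B ⊔ Vg (F := F) a a' (fun i => f (pref f i)) n}.Infinite := by
    intro hfin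
    obtain ⟨N, hN⟩ := hfin.bddAbove
    apply h
    refine Xg_inf_finite (N := N + 1) fun n hn hmem => ?_
    have := hN hmem
    omega
  have hinj : Function.Injective (pref f) := by
    intro m n hmn
    have := congrArg List.length hmn
    rwa [length_pref, length_pref] at this
  refine (h1.image hinj.injOn).mono ?_
  rintro _ ⟨n, hn, rfl⟩
  show a (pref f n).length + a' (f (pref f n)) ∈
    B ⊔ span F ((nodeVec a a' (pref f n) : Finset E) : Set E)
  rw [length_pref, span_nodeVec]
  exact hn

/-- An infinite-dimensional space has an independent sequence. -/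
lemma exists_indep_seq {M : Type*} [AddCommGroup M] [Module F M] (h : ¬ FiniteDimensional F M) :
    ∃ v : ℕ → M, LinearIndependent F v := by
  have hinf : Infinite (Basis.ofVectorSpaceIndex F M) := by
    by_contra hfin
    rw [not_infinite_iff_finite] at hfin
    exact h (Module.Finite.of_basis (Basis.ofVectorSpace F M))
  let e := Infinite.natEmbedding (Basis.ofVectorSpaceIndex F M)
  exact ⟨fun n => Basis.ofVectorSpace F M (e n),
    (Basis.ofVectorSpace F M).linearIndependent.comp e e.injective⟩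

/-- The main combinatorial theorem. -/
theorem exists_nonmeagre (𝒜 : Set (Submodule F E))
    (hinf : ∀ X ∈ 𝒜, ¬ FiniteDimensional F X)
    (had : ∀ X ∈ 𝒜, ∀ Y ∈ 𝒜, X ≠ Y → FiniteDimensional F ↥(X ⊓ Y))
    (hmax : ∀ X : Submodule F E, ¬ FiniteDimensional F X →
      ∃ B ∈ 𝒜, ¬ FiniteDimensional F ↥(X ⊓ B))
    (h2 : 𝒜.Nontrivial) :
    ∃ ψ : 𝒜 → ℕ → ℕ, ∀ K : Set ℕ, K.Infinite → ∀ g : ℕ → ℕ,
      ∃ b, {k | k ∈ K ∧ ψ b k = g k}.Infinite := by
  classical
  obtain ⟨A₁, hA₁, A₀, hA₀, hne⟩ := h2
  -- the sequences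
  have hq : ¬ FiniteDimensional F (A₀.map A₁.mkQ) := by
    intro hfin
    apply hinf A₀ hA₀
    set f : A₀ →ₗ[F] E ⧸ A₁ := A₁.mkQ ∘ₗ A₀.subtype with hf
    have h1 : FiniteDimensional F (LinearMap.range f) := by
      have : LinearMap.range f = A₀.map A₁.mkQ := by
        rw [hf, LinearMap.range_comp, Submodule.range_subtype]
      rw [this]; exact hfin
    have h3 : FiniteDimensional F (LinearMap.ker f) := by
      have h4 : (LinearMap.ker f).map A₀.subtype ≤ A₀ ⊓ A₁ := by
        rintro x ⟨u, hu, rfl⟩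
        have hu' : A₁.mkQ (u : E) = 0 := hu
        exact ⟨u.2, (Submodule.Quotient.mk_eq_zero A₁).1 hu'⟩
      have h5 : FiniteDimensional F ↥(A₀ ⊓ A₁) := had A₀ hA₀ A₁ hA₁ (Ne.symm hne)
      have h6 : FiniteDimensional F ((LinearMap.ker f).map A₀.subtype) :=
        Submodule.finiteDimensional_of_le h4
      exact Module.Finite.equiv
        (LinearEquiv.symm ((LinearMap.ker f).equivMapOfInjective A₀.subtype
          A₀.injective_subtype))
    have h7 : Module.Finite F (A₀ ⧸ LinearMap.ker f) :=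
      Module.Finite.equiv (LinearMap.quotKerEquivRange f).symm
    exact Module.Finite.of_submodule_quotient (LinearMap.ker f)
  have hq' : ¬ FiniteDimensional F (E ⧸ A₁) := fun hfin =>
    hq (FiniteDimensional.finiteDimensional_submodule _)
  obtain ⟨v, hv⟩ := exists_indep_seq hq'
  choose a ha using fun n => Submodule.mkQ_surjective A₁ (v n)
  have ha : LinearIndependent F (fun n => A₁.mkQ (a n)) := by
    have : (fun n => A₁.mkQ (a n)) = v := funext ha
    rw [this]; exact hv
  obtain ⟨v', hv'⟩ := exists_indep_seq (hinf A₁ hA₁)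
  set a' : ℕ → E := fun n => (v' n : E) with ha'def
  have ha'A : ∀ n, a' n ∈ A₁ := fun n => (v' n).2
  have ha' : LinearIndependent F a' := by
    have := hv'.map' A₁.subtype A₁.ker_subtype
    exact this
  -- the slaloms
  set e := Denumerable.eqv (List ℕ) with he
  have hfin : ∀ (B : 𝒜), (B : Submodule F E) ≠ A₁ → FiniteDimensional F ↥(A₁ ⊓ (B : Submodule F E)) :=
    fun B hB => had A₁ hA₁ B B.2 (Ne.symm hB)
  set φ : 𝒜 → ℕ → Finset ℕ := fun B i =>
    if hB : (B : Submodule F E) ≠ A₁ then
      if finrank F ↥(A₁ ⊓ (B : Submodule F E)) ≤ i then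
        (predSet_finite (hfin B hB) ha'A ha' (a := a) (e.symm i)).toFinset
      else ∅
    else ∅ with hφ
  have hcard : ∀ B i, (φ B i).card ≤ (e.symm i).length + 1 + i := by
    intro B i
    simp only [hφ]
    split_ifs with h1 h3
    · have h4 := predSet_ncard (hfin B h1) ha'A ha' (a := a) (e.symm i)
      rw [Set.ncard_eq_toFinset_card _ (predSet_finite (hfin B h1) ha'A ha' (a := a) (e.symm i))]
        at h4
      omega
    · simp
    · simp
  refine exists_ioe φ (fun i => (e.symm i).length + 1 + i) hcard ?_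
  intro g
  set f : List ℕ → ℕ := fun s => g (e s) with hf
  obtain ⟨B, hB𝒜, hB⟩ := hmax (Xg (F := F) a a' (fun i => f (pref f i))) (Xg_infinite ha ha'A _)
  have hBne : B ≠ A₁ := by
    intro h
    apply hB
    rw [h, Xg_inf_A₁ ha ha'A]
    infer_instance
  refine ⟨⟨B, hB𝒜⟩, ?_⟩
  have h5 := infinite_nodes f hB
  have h6 : (e '' {s | f s ∈ predSet (F := F) a a' B s}).Infinite := h5.image e.injective.injOn
  have h7 := h6.sdiff (Set.finite_Iio (finrank F ↥(A₁ ⊓ B)))
  refine h7.mono ?_
  rintro _ ⟨⟨s, hs, rfl⟩, hsk⟩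
  have hsk' : finrank F ↥(A₁ ⊓ B) ≤ e s := by simpa using hsk
  show g (e s) ∈ φ ⟨B, hB𝒜⟩ (e s)
  simp only [hφ]
  rw [dif_pos hBne, if_pos hsk', Set.Finite.mem_toFinset, Equiv.symm_apply_apply]
  exact hs

/-- Every set of at most countably many points of `ℕ → Bool` is meager. -/
lemma isMeagre_of_countable {S : Set (ℕ → Bool)} (hS : S.Countable) : IsMeagre S := by
  have hsing : ∀ x : ℕ → Bool, IsMeagre ({x} : Set (ℕ → Bool)) := by
    intro x
    apply IsNowhereDense.isMeagre
    rw [isClosed_singleton.isNowhereDense_iff]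
    by_contra hne
    obtain ⟨z, hz⟩ := Set.nonempty_iff_ne_empty.2 hne
    obtain ⟨s, hs, hzs, hsV⟩ := (PiNat.isTopologicalBasis_cylinders
      (fun _ : ℕ => Bool)).exists_subset_of_mem_open hz isOpen_interior
    obtain ⟨z₁, m, rfl⟩ := hs
    have hcz : PiNat.cylinder z m = PiNat.cylinder z₁ m := PiNat.mem_cylinder_iff_eq.1 hzs
    rw [← hcz] at hsV
    have h1 : z = x := Set.mem_singleton_iff.1 (interior_subset hz)
    have h2 : Function.update z m (!(z m)) = x := by
      have : Function.update z m (!(z m)) ∈ PiNat.cylinder z m := by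
        rw [PiNat.mem_cylinder_iff]
        intro i hi
        rw [Function.update_of_ne (by omega)]
      exact Set.mem_singleton_iff.1 (interior_subset (hsV this))
    have h3 := congrFun (h2.trans h1.symm) m
    rw [Function.update_self] at h3
    cases hzm : z m <;> simp [hzm] at h3
  have h := isMeagre_biUnion (f := fun x : ℕ → Bool => ({x} : Set (ℕ → Bool))) hS
    (fun x _ => hsing x)
  rwa [Set.biUnion_of_singleton] at h

/-- Every mad family of subspaces with at least two members is at least as large as some nonmeager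
subset of `ℕ → Bool`. -/
theorem exists_nonmeagre_le {F : Type} [Field F] {E : Type} [AddCommGroup E] [Module F E]
    (𝒜 : Set (Submodule F E))
    (hinf : ∀ X ∈ 𝒜, ¬ FiniteDimensional F X)
    (had : ∀ X ∈ 𝒜, ∀ Y ∈ 𝒜, X ≠ Y → FiniteDimensional F ↥(X ⊓ Y))
    (hmax : ∀ X : Submodule F E, ¬ FiniteDimensional F X →
      ∃ B ∈ 𝒜, ¬ FiniteDimensional F ↥(X ⊓ B))
    (h2 : 𝒜.Nontrivial) :
    ∃ S : Set (ℕ → Bool), ¬ IsMeagre S ∧ #S ≤ #𝒜 := by
  obtain ⟨ψ, hψ⟩ := exists_nonmeagre 𝒜 hinf had hmax h2
  refine ⟨_, not_isMeagre_range ψ hψ, ?_⟩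
  rcases lt_or_ge #𝒜 ℵ₀ with hlt | hge
  · exfalso
    have hf : Finite 𝒜 := Cardinal.lt_aleph0_iff_finite.1 hlt
    apply not_isMeagre_range ψ hψ
    exact isMeagre_of_countable (Set.finite_range _).countable
  · refine Cardinal.mk_range_le.trans ?_
    rw [Cardinal.mk_prod, Cardinal.mk_prod]
    simp only [Cardinal.lift_id, Cardinal.mk_fin]
    have h3 : #𝒜 * ((2 : ℕ) : Cardinal) ≤ #𝒜 := by
      rw [Cardinal.mul_eq_left hge ((Cardinal.natCast_le_aleph0).trans hge) (by norm_num)]
    calc #𝒜 * (#𝒜 * ((2 : ℕ) : Cardinal)) ≤ #𝒜 * #𝒜 := by gcongr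
      _ = #𝒜 := Cardinal.mul_eq_self hge

end Pool.H32.AV
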